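import Mathlib

/-!
# Project ES (MP_1d212a_nt): definitions

Exceptional set of `a / b = 1/x + 1/y + 1/z`.  Everything is elementary.
-/

set_option autoImplicit false

namespace Pool.Agent.Helper1.ES

open Finset

/-- A datum: the congruence `l * s ∣ k * b + u` for `b`. -/
structure Tr where
  u : ℕ
  k : ℕ
  l : ℕ
  s : ℕ
deriving DecidableEq

/-- `b` satisfies the congruence of `w`. -/
def Sat (b : ℕ) (w : Tr) : Prop := w.l * w.s ∣ w.k * b + w.u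

/-- the part of the congruence modulo `s`. -/
def SatS (b : ℕ) (w : Tr) : Prop := w.s ∣ w.k * b + w.u

instance (b : ℕ) (w : Tr) : Decidable (Sat b w) := by unfold Sat; infer_instance
instance (b : ℕ) (w : Tr) : Decidable (SatS b w) := by unfold SatS; infer_instance

/-- all prime factors of `q` are `> z`. -/
def Rough (z q : ℕ) : Prop := ∀ p : ℕ, p.Prime → p ∣ q → z < p

/-- admissible finite families. -/
structure Adm (Om : Finset Tr) (S : ℕ) : Prop where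
  prime : ∀ w ∈ Om, w.l.Prime
  big : ∀ w ∈ Om, S < w.l
  spos : ∀ w ∈ Om, 0 < w.s
  sle : ∀ w ∈ Om, w.s ≤ S
  cop : ∀ w ∈ Om, Nat.Coprime w.k (w.l * w.s)
  uniq : ∀ w ∈ Om, ∀ w' ∈ Om, w ≠ w' → w.l = w'.l → ∀ b : ℕ,
    w.l ∣ w.k * b + w.u → ¬ w.l ∣ w'.k * b + w'.u

/-- `T(b) = ∑ 1/l` over the data with `s ∣ k b + u`. -/
noncomputable def T (Om : Finset Tr) (b : ℕ) : ℝ :=
  ∑ w ∈ Om.filter (fun w => SatS b w), 1 / (w.l : ℝ)

/-- the part of `T(b)` with `p ∣ s`. -/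
noncomputable def Tp (Om : Finset Tr) (p b : ℕ) : ℝ :=
  ∑ w ∈ Om.filter (fun w => SatS b w ∧ p ∣ w.s), 1 / (w.l : ℝ)

/-- the total mass. -/
noncomputable def mu (Om : Finset Tr) : ℝ := ∑ w ∈ Om, 1 / ((w.l : ℝ) * w.s)

/-- number of satisfied data. -/
def X (Om : Finset Tr) (b : ℕ) : ℕ := (Om.filter (fun w => Sat b w)).card

/-- the small primes `z < p ≤ S`. -/
def PS (z S : ℕ) : Finset ℕ := (Ioc z S).filter Nat.Prime

/-- the small modulus. -/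
def WW (z S : ℕ) : ℕ := ∏ p ∈ PS z S, p ^ S

/-- the large primes which occur. -/
def LL (Om : Finset Tr) : Finset ℕ := Om.image Tr.l

/-- the full period. -/
def MM (Om : Finset Tr) (z S : ℕ) : ℕ := WW z S * ∏ l ∈ LL Om, l

/-- `∏ (1 - 1/p)` over the primes `p ≤ z` not dividing `m`. -/
noncomputable def V (m z : ℕ) : ℝ :=
  ∏ p ∈ (Icc 1 z).filter (fun p => p.Prime ∧ ¬ p ∣ m), (1 - 1 / (p : ℝ))

/-- the data of the application: `u, k ∈ (2^n, 2^{2n}]` coprime, `l ∈ (2^{35n}, 2^{80n}]` prime,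
`1 ≤ s < a u k`, `a u k ∣ l s + 1`, `s` free of primes `≤ z`. -/
noncomputable def Om (a n z : ℕ) : Finset Tr := by
  classical
  exact (((Ioc (2 ^ n) (2 ^ (2 * n))) ×ˢ (Ioc (2 ^ n) (2 ^ (2 * n))) ×ˢ
    (Ioc (2 ^ (35 * n)) (2 ^ (80 * n))) ×ˢ (Icc 1 (2 ^ (5 * n)))).filter
      (fun q : ℕ × ℕ × ℕ × ℕ => Nat.Coprime q.1 q.2.1 ∧ q.2.2.1.Prime ∧ q.2.2.2 < a * q.1 * q.2.1 ∧
        a * q.1 * q.2.1 ∣ q.2.2.1 * q.2.2.2 + 1 ∧ Rough z q.2.2.2)).image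
    (fun q => (⟨q.1, q.2.1, q.2.2.1, q.2.2.2⟩ : Tr))

theorem mem_Om {a n z : ℕ} {w : Tr} : w ∈ Om a n z ↔
    (2 ^ n < w.u ∧ w.u ≤ 2 ^ (2 * n)) ∧ (2 ^ n < w.k ∧ w.k ≤ 2 ^ (2 * n)) ∧
    (2 ^ (35 * n) < w.l ∧ w.l ≤ 2 ^ (80 * n)) ∧ (1 ≤ w.s ∧ w.s ≤ 2 ^ (5 * n)) ∧
    Nat.Coprime w.u w.k ∧ w.l.Prime ∧ w.s < a * w.u * w.k ∧ a * w.u * w.k ∣ w.l * w.s + 1 ∧
    Rough z w.s := by
  classical
  unfold Om
  simp only [mem_image, mem_filter, mem_product, mem_Ioc, mem_Icc]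
  constructor
  · rintro ⟨⟨u, k, l, s⟩, ⟨⟨h1, h2, h3, h4⟩, h5, h6, h7, h8, h9⟩, rfl⟩
    exact ⟨h1, h2, h3, h4, h5, h6, h7, h8, h9⟩
  · rintro ⟨h1, h2, h3, h4, h5, h6, h7, h8, h9⟩
    exact ⟨⟨w.u, w.k, w.l, w.s⟩, ⟨⟨h1, h2, h3, h4⟩, h5, h6, h7, h8, h9⟩, rfl⟩

/-- rough integers of a residue class in an interval -/
noncomputable def RC (m c z X H : ℕ) : Finset ℕ := by
  classical
  exact (Ioc X (X + H)).filter (fun q => q ≡ c [MOD m] ∧ Rough z q)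

theorem mem_RC {m c z X H q : ℕ} : q ∈ RC m c z X H ↔
    (X < q ∧ q ≤ X + H) ∧ q ≡ c [MOD m] ∧ Rough z q := by
  classical
  unfold RC
  simp only [mem_filter, mem_Ioc]

/-- rough integers `q ∈ (2^j, 2^{j+1}]` with `m ∣ q + 1` -/
noncomputable def AA (m z j : ℕ) : Finset ℕ := by
  classical
  exact (Ioc (2 ^ j) (2 ^ (j + 1))).filter (fun q => m ∣ q + 1 ∧ Rough z q)

theorem mem_AA {m z j q : ℕ} : q ∈ AA m z j ↔
    (2 ^ j < q ∧ q ≤ 2 ^ (j + 1)) ∧ m ∣ q + 1 ∧ Rough z q := by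
  classical
  unfold AA
  simp only [mem_filter, mem_Ioc]

/-- those with a prime factor `l > 2^{j+1} / m` -/
noncomputable def GG (m z j : ℕ) : Finset ℕ := by
  classical
  exact (AA m z j).filter (fun q => ∃ l : ℕ, l.Prime ∧ l ∣ q ∧ 2 ^ (j + 1) < l * m)

theorem mem_GG {m z j q : ℕ} : q ∈ GG m z j ↔
    q ∈ AA m z j ∧ ∃ l : ℕ, l.Prime ∧ l ∣ q ∧ 2 ^ (j + 1) < l * m := by
  classical
  unfold GG
  simp only [mem_filter]

/-- the number of `q ∈ AA m z j` divisible by `d` -/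
noncomputable def Ad (m z j d : ℕ) : ℕ := ((AA m z j).filter (fun q => d ∣ q)).card

/-- the cut-off `2^j / (m (z+1)^{32(1+log z)})` -/
def D1 (m z j : ℕ) : ℕ := 2 ^ j / (m * (z + 1) ^ (32 * (1 + Nat.log 2 z)))

/-- iterated-logarithm factor -/
noncomputable def psi (C n : ℕ) : ℝ := C * (1 + Real.log (1 + n)) ^ C

/-- `a/b` is a sum of three unit fractions -/
def Rep (a b : ℕ) : Prop :=
  ∃ x y z : ℕ, 0 < x ∧ 0 < y ∧ 0 < z ∧ (a : ℚ) / b = 1 / x + 1 / y + 1 / z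

end Pool.Agent.Helper1.ES
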