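import Pool.Agent.Helper1.ES.Defs
import Pool.Agent.Helper1.ES.St.N3a

/-!
Upper bound for the total mass.
-/

set_option autoImplicit false

namespace Pool.Agent.Helper1.ES

open Finset

private theorem mup_harm (M : ℕ) (hM : 1 ≤ M) :
    ∑ t ∈ Icc 1 M, 1 / (t : ℝ) ≤ 1 + Real.log M := by
  have h3 := harmonic_le_one_add_log M
  rw [harmonic_eq_sum_Icc] at h3
  push_cast at h3
  simpa only [one_div] using h3

private theorem mup_dy (n : ℕ) (hn : 1 ≤ n) :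
    ∑ t ∈ (Ioc (2 ^ n) (2 ^ (2 * n)) : Finset ℕ), 1 / (t : ℝ) ≤ 2 * n := by
  have h1 : ∑ t ∈ (Ioc (2 ^ n) (2 ^ (2 * n)) : Finset ℕ), 1 / (t : ℝ) ≤
      ∑ t ∈ (Ioc 1 (2 ^ (2 * n)) : Finset ℕ), 1 / (t : ℝ) := by
    apply sum_le_sum_of_subset_of_nonneg
    · intro t ht
      rw [mem_Ioc] at ht
      rw [mem_Ioc]
      have : 2 ^ 1 ≤ 2 ^ n := Nat.pow_le_pow_right (by norm_num) hn
      omega
    · intro t _ _
      positivity
  have h2 : ∑ t ∈ (Icc 1 (2 ^ (2 * n)) : Finset ℕ), 1 / (t : ℝ) =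
      1 / ((1 : ℕ) : ℝ) + ∑ t ∈ (Ioc 1 (2 ^ (2 * n)) : Finset ℕ), 1 / (t : ℝ) :=
    (Finset.add_sum_Ioc_eq_sum_Icc (f := fun t : ℕ => 1 / (t : ℝ)) (Nat.one_le_two_pow)).symm
  have h3 := mup_harm (2 ^ (2 * n)) Nat.one_le_two_pow
  rw [h2] at h3
  push_cast at h3
  rw [Real.log_pow] at h3
  push_cast at h3
  have hl := Real.log_two_lt_d9
  have hn0 : (0 : ℝ) ≤ n := Nat.cast_nonneg n
  nlinarith

theorem mu_upper : ∃ C n₀ : ℕ, 1 ≤ C ∧ ∀ n : ℕ, n₀ ≤ n → ∀ a : ℕ, 1 ≤ a → a ≤ 2 ^ n → ∀ z : ℕ,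
    mu (Om a n z) ≤ (n : ℝ) ^ 3 * psi C n / a := by
  obtain ⟨C, n₀, hC, hp⟩ := prime_recip
  refine ⟨24 * C, max n₀ 1, by omega, fun n hn a ha han z => ?_⟩
  have hn0 : n₀ ≤ n := le_trans (le_max_left _ _) hn
  have hn1 : 1 ≤ n := le_trans (le_max_right _ _) hn
  have hn1R : (1 : ℝ) ≤ n := by exact_mod_cast hn1
  have hlog : 0 ≤ Real.log (1 + n) := Real.log_nonneg (by linarith)
  have hpsi0 : 0 ≤ psi C n := by unfold psi; positivity
  have hpsi : 24 * psi C n ≤ psi (24 * C) n := by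
    unfold psi
    have h1 : (1 + Real.log (1 + (n : ℝ))) ^ C ≤ (1 + Real.log (1 + (n : ℝ))) ^ (24 * C) :=
      pow_le_pow_right₀ (by linarith) (by omega)
    push_cast
    have h2 : (0 : ℝ) ≤ 24 * C := by positivity
    calc 24 * ((C : ℝ) * (1 + Real.log (1 + (n : ℝ))) ^ C)
        = (24 * C) * (1 + Real.log (1 + (n : ℝ))) ^ C := by ring
      _ ≤ (24 * C) * (1 + Real.log (1 + (n : ℝ))) ^ (24 * C) := mul_le_mul_of_nonneg_left h1 h2
  have haR : (0 : ℝ) < a := by exact_mod_cast ha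
  set I := Ioc (2 ^ n) (2 ^ (2 * n)) with hI
  set Sg := Icc 1 (2 ^ (5 * n)) with hSg
  have hmaps : ∀ w ∈ Om a n z, (w.u, w.k, w.s) ∈ I ×ˢ I ×ˢ Sg := by
    intro w hw
    have h := mem_Om.1 hw
    simp only [hI, hSg, mem_product, mem_Ioc, mem_Icc]
    exact ⟨h.1, h.2.1, h.2.2.2.1⟩
  have hfib : ∀ q ∈ I ×ˢ I ×ˢ Sg,
      ∑ w ∈ (Om a n z).filter (fun w => (w.u, w.k, w.s) = q), 1 / ((w.l : ℝ) * w.s) ≤
      (1 / (q.1 : ℝ)) * ((1 / (q.2.1 : ℝ)) * (1 / (q.2.2 : ℝ) * (psi C n / a))) := by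
    rintro ⟨u, k, s⟩ hq
    simp only [hI, hSg, mem_product, mem_Ioc, mem_Icc] at hq
    obtain ⟨hu, hk, hs⟩ := hq
    have hu0 : (0 : ℝ) < u := by exact_mod_cast (by omega : 0 < u)
    have hk0 : (0 : ℝ) < k := by exact_mod_cast (by omega : 0 < k)
    have hs0 : (0 : ℝ) < s := by exact_mod_cast (by omega : 0 < s)
    have hm1 : 1 ≤ a * u * k := Nat.mul_pos (Nat.mul_pos ha (by omega)) (by omega)
    have hm2 : a * u * k ≤ 2 ^ (5 * n) := by
      calc a * u * k ≤ 2 ^ n * 2 ^ (2 * n) * 2 ^ (2 * n) :=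
            Nat.mul_le_mul (Nat.mul_le_mul han hu.2) hk.2
        _ = 2 ^ (5 * n) := by rw [← pow_add, ← pow_add]; congr 1; ring
    have h1 := hp n hn0 (a * u * k) s hm1 hm2
    have h2 : ∑ w ∈ (Om a n z).filter (fun w => (w.u, w.k, w.s) = (u, k, s)),
        1 / ((w.l : ℝ) * w.s) ≤ (1 / (s : ℝ)) *
        ∑ l ∈ (Ioc (2 ^ (35 * n)) (2 ^ (80 * n))).filter (fun l => l.Prime ∧ a * u * k ∣ l * s + 1),
          1 / (l : ℝ) := by
      have e1 : ∑ w ∈ (Om a n z).filter (fun w => (w.u, w.k, w.s) = (u, k, s)),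
          1 / ((w.l : ℝ) * w.s) =
          ∑ l ∈ ((Om a n z).filter (fun w => (w.u, w.k, w.s) = (u, k, s))).image Tr.l,
            1 / ((l : ℝ) * s) := by
        rw [sum_image]
        · apply sum_congr rfl
          intro w hw
          rw [mem_filter, Prod.mk.injEq, Prod.mk.injEq] at hw
          rw [hw.2.2.2]
        · intro w hw w' hw' hl
          rw [mem_coe, mem_filter, Prod.mk.injEq, Prod.mk.injEq] at hw hw'
          obtain ⟨wu, wk, wl, ws⟩ := w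
          obtain ⟨wu', wk', wl', ws'⟩ := w'
          simp only at hw hw' hl
          rw [hw.2.1, hw.2.2.1, hw.2.2.2, hw'.2.1, hw'.2.2.1, hw'.2.2.2, hl]
      rw [e1, mul_sum]
      refine (sum_le_sum_of_subset_of_nonneg (t := (Ioc (2 ^ (35 * n)) (2 ^ (80 * n))).filter
        (fun l => l.Prime ∧ a * u * k ∣ l * s + 1)) ?_ (fun _ _ _ => by positivity)).trans
        (le_of_eq ?_)
      · intro l hl
        rw [mem_image] at hl
        obtain ⟨w, hw, rfl⟩ := hl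
        rw [mem_filter, Prod.mk.injEq, Prod.mk.injEq] at hw
        obtain ⟨hw, h3, h4, h5⟩ := hw
        have h := mem_Om.1 hw
        rw [mem_filter, mem_Ioc]
        refine ⟨h.2.2.1, h.2.2.2.2.2.1, ?_⟩
        rw [← h3, ← h4, ← h5]
        exact h.2.2.2.2.2.2.2.1
      · apply sum_congr rfl
        intro l _
        rw [one_div_mul_one_div, mul_comm]
    refine h2.trans ?_
    calc (1 / (s : ℝ)) * _ ≤ (1 / (s : ℝ)) * (psi C n / ((a * u * k : ℕ) : ℝ)) :=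
          mul_le_mul_of_nonneg_left h1 (by positivity)
      _ = _ := by
          push_cast
          field_simp
  have hsum : mu (Om a n z) = ∑ q ∈ I ×ˢ I ×ˢ Sg,
      ∑ w ∈ (Om a n z).filter (fun w => (w.u, w.k, w.s) = q), 1 / ((w.l : ℝ) * w.s) := by
    unfold mu
    rw [Finset.sum_fiberwise_of_maps_to hmaps]
  have hI2 := mup_dy n hn1
  have hS2 : ∑ t ∈ Sg, 1 / (t : ℝ) ≤ 6 * n := by
    have h3 := mup_harm (2 ^ (5 * n)) Nat.one_le_two_pow
    push_cast at h3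
    rw [Real.log_pow] at h3
    push_cast at h3
    have hl := Real.log_two_lt_d9
    refine h3.trans ?_
    nlinarith
  have hI0 : 0 ≤ ∑ t ∈ I, 1 / (t : ℝ) := sum_nonneg fun _ _ => by positivity
  have hS0 : 0 ≤ ∑ t ∈ Sg, 1 / (t : ℝ) := sum_nonneg fun _ _ => by positivity
  calc mu (Om a n z) = _ := hsum
    _ ≤ ∑ q ∈ I ×ˢ I ×ˢ Sg,
        (1 / (q.1 : ℝ)) * ((1 / (q.2.1 : ℝ)) * (1 / (q.2.2 : ℝ) * (psi C n / a))) :=
        sum_le_sum hfib
    _ = (∑ t ∈ I, 1 / (t : ℝ)) * ((∑ t ∈ I, 1 / (t : ℝ)) * ((∑ t ∈ Sg, 1 / (t : ℝ)) *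
        (psi C n / a))) := by
        rw [sum_product, sum_mul]
        apply sum_congr rfl
        intro u _
        change ∑ y ∈ I ×ˢ Sg, (1 / (u : ℝ)) * ((1 / (y.1 : ℝ)) * (1 / (y.2 : ℝ) * (psi C n / a))) = _
        rw [← mul_sum, sum_product]
        congr 1
        rw [sum_mul]
        apply sum_congr rfl
        intro k _
        change ∑ y ∈ Sg, (1 / (k : ℝ)) * (1 / (y : ℝ) * (psi C n / a)) = _
        rw [← mul_sum, sum_mul]
    _ ≤ (2 * n) * ((2 * n) * ((6 * n) * (psi C n / a))) := by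
        have hq : 0 ≤ psi C n / a := by positivity
        apply mul_le_mul hI2 _ (by positivity) (by positivity)
        apply mul_le_mul hI2 _ (by positivity) (by positivity)
        exact mul_le_mul_of_nonneg_right hS2 hq
    _ = (n : ℝ) ^ 3 * (24 * psi C n) / a := by ring
    _ ≤ (n : ℝ) ^ 3 * psi (24 * C) n / a := by gcongr

end Pool.Agent.Helper1.ES
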