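import Pool.Agent.Helper1.ES.Defs
import Pool.Agent.Helper1.ES.St.G6
import Pool.Agent.Helper1.ES.St.G7a
import Pool.Agent.Helper1.ES.St.G7b
import Pool.Agent.Helper1.ES.St.G5a

/-!
ES-G7 the small primes.  Apply `bd_mgf` to `f x = T Om (e x)` with `e` from `crt_small` and `c p = τ / p`.
Bounded differences: if only the coordinate `p` changes then the data with `p ∤ w.s` keep their status
(`w.s ∣ WW z S` by `s_dvd` and `p ∤ w.s`, so `w.s ∣ ∏_{q ≠ p} q ^ S`, and the two arguments are congruent modulo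
every `q ^ S`, `q ≠ p`), so the difference of `T` equals the difference of two values of `Tp Om p`, both in
`[0, τ / p]`; hence it is `≤ τ / p ≤ 1` in absolute value.  `∑_{p} (τ/p)^2 ≤ τ^2 ∑_{m > z} 1/m^2 ≤ τ^2 / z`
(telescoping).  The mean of `f` is `mu Om` by `mean_T` (`WW z S > 0`).
-/

set_option autoImplicit false

namespace Pool.Agent.Helper1.ES

open Finset

private theorem g7l_pos {z S p : ℕ} (hp : p ∈ PS z S) : p.Prime ∧ z < p ∧ p ≤ S := by
  unfold PS at hp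
  rw [mem_filter, mem_Ioc] at hp
  exact ⟨hp.2, hp.1.1, hp.1.2⟩

private theorem g7l_WW_pos (z S : ℕ) : 0 < WW z S := by
  unfold WW
  exact Finset.prod_pos fun p hp => pow_pos (g7l_pos hp).1.pos _

/-- splitting of `T`. -/
private theorem g7l_split (Om : Finset Tr) (p b : ℕ) :
    T Om b = ∑ w ∈ Om.filter (fun w => SatS b w ∧ ¬ p ∣ w.s), 1 / (w.l : ℝ) + Tp Om p b := by
  unfold T Tp
  rw [← Finset.sum_filter_add_sum_filter_not (Om.filter (fun w => SatS b w)) (fun w => ¬ p ∣ w.s)]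
  rw [Finset.filter_filter, Finset.filter_filter]
  congr 1
  apply Finset.sum_congr
  · ext w
    simp only [mem_filter, not_not]
  · intros; rfl

private theorem g7l_Tp_nonneg (Om : Finset Tr) (p b : ℕ) : 0 ≤ Tp Om p b := by
  unfold Tp
  exact Finset.sum_nonneg fun w _ => by positivity

private theorem g7l_modEq {z S : ℕ} {p s a b : ℕ} (hp : p ∈ PS z S) (h0 : 0 < s) (hS : s ≤ S)
    (hr : Rough z s) (hps : ¬ p ∣ s)
    (hab : ∀ q ∈ PS z S, q ≠ p → a % q ^ S = b % q ^ S) : a ≡ b [MOD s] := by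
  have hd := s_dvd z S s h0 hS hr
  have hprod : WW z S = p ^ S * ∏ q ∈ (PS z S).erase p, q ^ S := by
    unfold WW
    exact (Finset.mul_prod_erase (PS z S) (fun q => q ^ S) hp).symm
  rw [hprod] at hd
  have hcop : Nat.Coprime s (p ^ S) :=
    Nat.Coprime.pow_right _ (((g7l_pos hp).1.coprime_iff_not_dvd.mpr hps).symm)
  have hd2 : s ∣ ∏ q ∈ (PS z S).erase p, q ^ S := hcop.dvd_of_dvd_mul_left hd
  have hd3 : ((∏ q ∈ (PS z S).erase p, q ^ S : ℕ) : ℤ) ∣ (b : ℤ) - a := by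
    rw [Nat.cast_prod]
    apply Finset.prod_dvd_of_coprime
    · intro q hq q' hq' hne
      have h1 := g7l_pos (Finset.mem_of_mem_erase (Finset.mem_coe.mp hq))
      have h2 := g7l_pos (Finset.mem_of_mem_erase (Finset.mem_coe.mp hq'))
      change IsCoprime ((q ^ S : ℕ) : ℤ) ((q' ^ S : ℕ) : ℤ)
      rw [Nat.isCoprime_iff_coprime]
      exact Nat.Coprime.pow _ _ ((Nat.coprime_primes h1.1 h2.1).mpr hne)
    · intro q hq
      have h1 := hab q (Finset.mem_of_mem_erase hq) (Finset.ne_of_mem_erase hq)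
      exact (Nat.modEq_iff_dvd).mp h1
  exact (Nat.modEq_iff_dvd).mpr (dvd_trans (Int.natCast_dvd_natCast.mpr hd2) hd3)

private theorem g7l_diff (Om : Finset Tr) (S z : ℕ) (τ : ℝ) (hA : Adm Om S)
    (hz : ∀ w ∈ Om, Rough z w.s)
    (hT : ∀ p : ℕ, p.Prime → z < p → ∀ b : ℕ, Tp Om p b ≤ τ / p) {p a b : ℕ} (hp : p ∈ PS z S)
    (hab : ∀ q ∈ PS z S, q ≠ p → a % q ^ S = b % q ^ S) : |T Om a - T Om b| ≤ τ / p := by
  obtain ⟨hpp, hzp, hpS⟩ := g7l_pos hp
  have h1 : ∑ w ∈ Om.filter (fun w => SatS a w ∧ ¬ p ∣ w.s), 1 / (w.l : ℝ) =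
      ∑ w ∈ Om.filter (fun w => SatS b w ∧ ¬ p ∣ w.s), 1 / (w.l : ℝ) := by
    apply Finset.sum_congr _ (fun _ _ => rfl)
    apply Finset.filter_congr
    intro w hw
    apply and_congr_left
    intro hps
    have hm := g7l_modEq hp (hA.spos w hw) (hA.sle w hw) (hz w hw) hps hab
    unfold SatS
    exact ((hm.mul_left w.k).add_right w.u).dvd_iff dvd_rfl
  rw [g7l_split Om p a, g7l_split Om p b, h1]
  have h2 := hT p hpp hzp a
  have h3 := hT p hpp hzp b
  have h4 := g7l_Tp_nonneg Om p a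
  have h5 := g7l_Tp_nonneg Om p b
  rw [abs_le]
  constructor <;> linarith

private theorem g7l_sum (z S : ℕ) (τ : ℝ) (hz1 : 1 ≤ z) :
    ∑ p : ↥(PS z S), (τ / ((p : ℕ) : ℝ)) ^ 2 ≤ τ ^ 2 / z := by
  rw [Finset.sum_coe_sort (PS z S) (fun p : ℕ => (τ / (p : ℝ)) ^ 2)]
  have hzpos : (0 : ℝ) < z := by exact_mod_cast hz1
  have h1 : ∑ p ∈ PS z S, (τ / (p : ℝ)) ^ 2 ≤ ∑ p ∈ Ioc z S, (τ / (p : ℝ)) ^ 2 := by
    apply Finset.sum_le_sum_of_subset_of_nonneg
    · unfold PS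
      exact Finset.filter_subset _ _
    · intro i _ _
      positivity
  refine h1.trans ?_
  by_cases hzS : z ≤ S
  · have h2 := sum_Ioc_inv_sq_le_sub (α := ℝ) (Nat.one_le_iff_ne_zero.mp hz1) hzS
    have h3 : ∑ p ∈ Ioc z S, (τ / (p : ℝ)) ^ 2 = τ ^ 2 * ∑ p ∈ Ioc z S, ((p : ℝ) ^ 2)⁻¹ := by
      rw [Finset.mul_sum]
      apply Finset.sum_congr rfl
      intro p _
      rw [div_pow, div_eq_mul_inv]
    rw [h3]
    have h4 : (0 : ℝ) ≤ ((S : ℝ))⁻¹ := by positivity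
    calc τ ^ 2 * ∑ p ∈ Ioc z S, ((p : ℝ) ^ 2)⁻¹ ≤ τ ^ 2 * ((z : ℝ))⁻¹ := by
          apply mul_le_mul_of_nonneg_left _ (sq_nonneg τ)
          linarith
      _ = τ ^ 2 / z := by rw [div_eq_mul_inv]
  · rw [Finset.Ioc_eq_empty (by omega), Finset.sum_empty]
    positivity

theorem small_part_mul (Om : Finset Tr) (S z : ℕ) (τ c : ℝ) (hA : Adm Om S)
    (hz : ∀ w ∈ Om, Rough z w.s) (hz1 : 1 ≤ z) (hτ0 : 0 ≤ τ) (hτ : |c| * τ ≤ z)
    (hT : ∀ p : ℕ, p.Prime → z < p → ∀ b : ℕ, Tp Om p b ≤ τ / p) :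
    ∑ β ∈ range (WW z S), Real.exp (-(c * T Om β)) ≤
      WW z S * Real.exp (-(c * mu Om) + c ^ 2 * τ ^ 2 / z) := by
  obtain ⟨e, he⟩ := crt_small z S
  have hne : ∀ i : ↥(PS z S), Nonempty (Fin ((i : ℕ) ^ S)) := fun i =>
    ⟨⟨0, pow_pos (g7l_pos i.2).1.pos _⟩⟩
  have hWpos : (0 : ℝ) < WW z S := by exact_mod_cast g7l_WW_pos z S
  have hcard : (Fintype.card (∀ p : ↥(PS z S), Fin ((p : ℕ) ^ S)) : ℝ) = WW z S := by
    rw [Fintype.card_congr e, Fintype.card_fin]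
  have key := bd_mgf (fun p : ↥(PS z S) => Fin ((p : ℕ) ^ S))
    (fun x => c * T Om ((e x : Fin _) : ℕ))
    (fun p => |c| * τ / ((p : ℕ) : ℝ)) (fun p => by positivity)
    (fun p => by
      have h1 := (g7l_pos p.2).2.1
      have h2 : (z : ℝ) < ((p : ℕ) : ℝ) := by exact_mod_cast h1
      have h3 : (0 : ℝ) < ((p : ℕ) : ℝ) := lt_of_le_of_lt (Nat.cast_nonneg z) h2
      rw [div_le_one h3]
      linarith)
    (fun x p v => by
      have h4 := g7l_diff Om S z τ hA hz hT p.2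
        (a := ((e (Function.update x p v) : Fin _) : ℕ)) (b := ((e x : Fin _) : ℕ)) (by
          intro q hq hqp
          have h1 := he (Function.update x p v) ⟨q, hq⟩
          have h2 := he x ⟨q, hq⟩
          have h3 : (⟨q, hq⟩ : ↥(PS z S)) ≠ p := fun h => hqp (congrArg Subtype.val h)
          rw [Function.update_of_ne h3] at h1
          exact h1.trans h2.symm)
      rw [← mul_sub, abs_mul, mul_div_assoc]
      exact mul_le_mul_of_nonneg_left h4 (abs_nonneg c))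
  rw [hcard] at key
  have hs1 : ∑ x, Real.exp (-(c * T Om ((e x : Fin _) : ℕ))) =
      ∑ β ∈ range (WW z S), Real.exp (-(c * T Om β)) := by
    rw [Finset.sum_range, ← Equiv.sum_comp e]
  have hs2 : ∑ x, c * T Om ((e x : Fin _) : ℕ) = c * ∑ β ∈ range (WW z S), T Om β := by
    rw [Finset.sum_range, ← Equiv.sum_comp e, Finset.mul_sum]
  rw [hs1, hs2, mean_T Om S z hA hz] at key
  rw [div_le_iff₀ hWpos] at key
  have e1 : c * (WW z S * mu Om) / WW z S = c * mu Om := by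
    field_simp
  rw [e1] at key
  refine key.trans ?_
  rw [mul_comm]
  apply mul_le_mul_of_nonneg_left _ hWpos.le
  apply Real.exp_le_exp.mpr
  have h5 := g7l_sum z S (|c| * τ) hz1
  rw [mul_pow, sq_abs] at h5
  linarith

end Pool.Agent.Helper1.ES
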