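import Pool.Agent.Helper1.ES.Params2
import Pool.Agent.Helper1.ES.Sieve2
import Pool.Agent.Helper1.ES.MuUp
import Pool.Agent.Helper1.ES.St.N1
import Pool.Agent.Helper1.ES.St.N2
import Pool.Agent.Helper1.ES.St.N3
import Pool.Agent.Helper1.ES.Z.N4

/-!
# Project ES: the theorem, uniform in `a`
-/

set_option autoImplicit false

namespace Pool.Agent.Helper1.ES

open Finset Filter

private theorem f2_card_Om (a n z : ℕ) (hn : 1 ≤ n) : ((Om a n z).card : ℝ) + 1 ≤ 2 ^ (90 * n) := by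
  classical
  have h1 : (Om a n z).card ≤ 2 ^ (89 * n) := by
    unfold Om
    refine Finset.card_image_le.trans ((Finset.card_filter_le _ _).trans ?_)
    simp only [Finset.card_product, Nat.card_Ioc, Nat.card_Icc]
    calc (2 ^ (2 * n) - 2 ^ n) * ((2 ^ (2 * n) - 2 ^ n) * ((2 ^ (80 * n) - 2 ^ (35 * n)) *
          (2 ^ (5 * n) + 1 - 1)))
        ≤ 2 ^ (2 * n) * (2 ^ (2 * n) * (2 ^ (80 * n) * 2 ^ (5 * n))) := by
          gcongr
          · exact Nat.sub_le _ _
          · exact Nat.sub_le _ _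
          · exact Nat.sub_le _ _
          · simp
      _ = 2 ^ (89 * n) := by
          rw [← pow_add, ← pow_add, ← pow_add]
          congr 1
          ring
  have h2 : (Om a n z).card + 1 ≤ 2 ^ (90 * n) := by
    have h3 : 2 ^ (89 * n) + 1 ≤ 2 ^ (90 * n) := by
      have h4 : 2 ^ (89 * n + 1) ≤ 2 ^ (90 * n) := Nat.pow_le_pow_right (by norm_num) (by omega)
      rw [pow_succ] at h4
      have h5 : 1 ≤ 2 ^ (89 * n) := Nat.one_le_two_pow
      omega
    omega
  exact_mod_cast h2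

private theorem f2_psi_mono {C C' n : ℕ} (h : C ≤ C') : psi C n ≤ psi C' n := by
  unfold psi
  have h0 : 0 ≤ Real.log (1 + n) := Real.log_nonneg (by
    have : (0 : ℝ) ≤ n := Nat.cast_nonneg n
    linarith)
  have h1 : (1 + Real.log (1 + n)) ^ C ≤ (1 + Real.log (1 + n)) ^ C' :=
    pow_le_pow_right₀ (by linarith) h
  have h2 : (C : ℝ) ≤ C' := by exact_mod_cast h
  exact mul_le_mul h2 h1 (by positivity) (by positivity)

private theorem f2_X_rep (a n z N : ℕ) (ha : 1 ≤ a) :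
    {b : ℕ | 1 ≤ b ∧ b ≤ N ∧ ¬ Rep a b} ⊆
      ((Icc 1 N).filter (fun b => X (Om a n z) b = 0) : Finset ℕ) := by
  intro b hb
  obtain ⟨h1, h2, h3⟩ := hb
  rw [Finset.mem_coe, Finset.mem_filter, Finset.mem_Icc]
  refine ⟨⟨h1, h2⟩, ?_⟩
  unfold X
  rw [Finset.card_eq_zero, Finset.filter_eq_empty_iff]
  intro w hw hs
  exact h3 (rep_of_sat a n z b w ha h1 hw hs)

theorem main2 : ∃ C N₀ : ℕ, ∀ N : ℕ, N₀ ≤ N → ∀ a : ℕ, 1 ≤ a →
    (({b : ℕ | 1 ≤ b ∧ b ≤ N ∧ ¬ Rep a b}.ncard : ℕ) : ℝ) ≤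
      3 * N * Real.exp (-(((Real.log N) ^ 3 / a) ^ (1 / 4 : ℝ) /
        (Real.log (Real.log N)) ^ C)) := by
  obtain ⟨C₁, n₁, hC₁, hT⟩ := T_bound
  obtain ⟨C₂, n₂, hC₂, hmu⟩ := Z.mu_lower
  obtain ⟨C₃, n₃, hC₃, hmu3⟩ := mu_upper
  set C := max C₁ (max C₂ C₃) with hCdef
  have hp := params2 C (max n₁ (max n₂ n₃)) (hC₁.trans (le_max_left _ _))
  have hq := Real.tendsto_log_atTop.eventually_ge_atTop (1 : ℝ)
  have hp' : ∀ᶠ N : ℕ in atTop, _ :=
    (Real.tendsto_log_atTop.comp tendsto_natCast_atTop_atTop).eventually (hp.and hq)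
  obtain ⟨N₀, hN₀⟩ := Filter.eventually_atTop.1 (hp'.and (eventually_ge_atTop 1))
  refine ⟨8 * C + 5, N₀, fun N hN a ha1 => ?_⟩
  obtain ⟨⟨hall, hLL⟩, hN1⟩ := hN₀ N hN
  simp only [Function.comp_apply] at hall hLL
  have haR : (1 : ℝ) ≤ a := by exact_mod_cast ha1
  have ha0 : (0 : ℝ) < a := by linarith
  have hN0 : (0 : ℝ) < N := by exact_mod_cast hN1
  set L := Real.log N with hL
  have hℓ0 : 0 < Real.log L := by linarith
  set Q := (L ^ 3 / (a : ℝ)) ^ (1 / 4 : ℝ) / (Real.log L) ^ (8 * C + 5) with hQ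
  rcases lt_or_ge ((L ^ 3 / (a : ℝ)) ^ (1 / 4 : ℝ)) ((Real.log L) ^ (8 * C + 5)) with hcase | hcase
  · -- trivial range
    have hQ1 : Q ≤ 1 := by
      rw [hQ, div_le_one (pow_pos hℓ0 _)]
      exact hcase.le
    have h1 : ({b : ℕ | 1 ≤ b ∧ b ≤ N ∧ ¬ Rep a b}.ncard : ℝ) ≤ N := by
      have h2 : {b : ℕ | 1 ≤ b ∧ b ≤ N ∧ ¬ Rep a b} ⊆ ((Icc 1 N : Finset ℕ) : Set ℕ) := by
        intro b hb
        rw [Finset.mem_coe, Finset.mem_Icc]
        exact ⟨hb.1, hb.2.1⟩
      have h3 := Set.ncard_le_ncard h2 (Finset.finite_toSet _)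
      rw [Set.ncard_coe_finset, Nat.card_Icc, Nat.add_sub_cancel] at h3
      exact_mod_cast h3
    refine h1.trans ?_
    have h2 : Real.exp (-1) ≤ Real.exp (-Q) := Real.exp_le_exp.2 (by linarith)
    have h3 : 1 ≤ 3 * Real.exp (-1) := by
      rw [Real.exp_neg, ← div_eq_mul_inv, le_div_iff₀ (Real.exp_pos _)]
      have := Real.exp_one_lt_d9
      linarith
    calc (N : ℝ) = N * 1 := (mul_one _).symm
      _ ≤ N * (3 * Real.exp (-Q)) := by
          apply mul_le_mul_of_nonneg_left _ hN0.le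
          linarith
      _ = 3 * N * Real.exp (-Q) := by ring
  · obtain ⟨n, hnn, hn2, hP1, hPn, han, h4, h5, h6⟩ := hall a haR hcase
    have hnn1 : n₁ ≤ n := (le_max_left _ _).trans hnn
    have hnn2 : n₂ ≤ n := ((le_max_left _ _).trans (le_max_right _ _)).trans hnn
    have hnn3 : n₃ ≤ n := ((le_max_right _ _).trans (le_max_right _ _)).trans hnn
    have hc1 : C₁ ≤ C := le_max_left _ _
    have hc2 : C₂ ≤ C := (le_max_left _ _).trans (le_max_right _ _)
    have hc3 : C₃ ≤ C := (le_max_right _ _).trans (le_max_right _ _)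
    have hn1 : 1 ≤ n := by omega
    set P := psi C n with hP
    have hn2R : (2 : ℝ) ≤ n := by exact_mod_cast hn2
    have hn0 : (0 : ℝ) < n := by linarith
    have hP0 : 0 < P := by linarith
    have han' : a ≤ 2 ^ n := by exact_mod_cast han
    set τ : ℝ := (n : ℝ) ^ 3 * P with hτ
    have hτ0 : 0 ≤ τ := by positivity
    set M : ℝ := (n : ℝ) ^ 3 * P / a with hM
    have hM0 : 0 ≤ M := by positivity
    set t : ℕ := ⌈8 * M + 64⌉₊ with ht
    have ht1 : 8 * M + 64 ≤ t := Nat.le_ceil _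
    have ht2 : (t : ℝ) ≤ 8 * M + 65 := by
      have : (t : ℝ) < 8 * M + 64 + 1 := Nat.ceil_lt_add_one (by positivity)
      linarith
    have hPC1 : psi C₁ n ≤ P := f2_psi_mono hc1
    have hPC2 : psi C₂ n ≤ P := f2_psi_mono hc2
    have hPC3 : psi C₃ n ≤ P := f2_psi_mono hc3
    have hT' := hT n hnn1 a ha1 han' (n ^ 16)
    have hz : ∀ w ∈ Om a n (n ^ 16), Rough (n ^ 16) w.s :=
      fun w hw => (mem_Om.1 hw).2.2.2.2.2.2.2.2
    have hτn : τ ≤ (n : ℝ) ^ 4 := by
      rw [hτ]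
      calc (n : ℝ) ^ 3 * P ≤ (n : ℝ) ^ 3 * n := mul_le_mul_of_nonneg_left hPn (by positivity)
        _ = (n : ℝ) ^ 4 := by ring
    have hn12 : (8 : ℝ) ≤ (n : ℝ) ^ 12 := by
      calc (8 : ℝ) ≤ 2 ^ 12 := by norm_num
        _ ≤ (n : ℝ) ^ 12 := pow_le_pow_left₀ (by norm_num) hn2R 12
    have hsieve := sieve_main2 (Om a n (n ^ 16)) (2 ^ (5 * n)) (n ^ 16) t N τ
      (adm_Om a n (n ^ 16) hn1 ha1 han') hz (Nat.one_le_pow _ _ hn1) hτ0 (by
        push_cast
        calc 8 * τ ≤ 8 * (n : ℝ) ^ 4 := by linarith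
          _ ≤ (n : ℝ) ^ 12 * (n : ℝ) ^ 4 := mul_le_mul_of_nonneg_right hn12 (by positivity)
          _ = (n : ℝ) ^ 16 := by ring)
      (fun p hp _ b => ((hT' b).2 p hp).trans (by
        apply div_le_div_of_nonneg_right _ (Nat.cast_nonneg p)
        exact mul_le_mul_of_nonneg_left hPC1 (by positivity)))
    have hcard : (({b : ℕ | 1 ≤ b ∧ b ≤ N ∧ ¬ Rep a b}.ncard : ℕ) : ℝ) ≤
        (((Icc 1 N).filter (fun b => X (Om a n (n ^ 16)) b = 0)).card : ℝ) := by
      have := Set.ncard_le_ncard (f2_X_rep a n (n ^ 16) N ha1) (Finset.finite_toSet _)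
      rw [Set.ncard_coe_finset] at this
      exact_mod_cast this
    refine hcard.trans (hsieve.trans ?_)
    set σ : ℝ := τ ^ 2 / ((n ^ 16 : ℕ) : ℝ) with hσ
    have hσ1 : σ ≤ 1 := by
      rw [hσ]
      push_cast
      rw [div_le_one (by positivity)]
      calc τ ^ 2 ≤ ((n : ℝ) ^ 4) ^ 2 := pow_le_pow_left₀ hτ0 hτn 2
        _ = (n : ℝ) ^ 8 := by ring
        _ ≤ (n : ℝ) ^ 16 := pow_le_pow_right₀ (by linarith) (by norm_num)
    have hpos : ∀ c : ℕ, 1 ≤ c → 0 < psi c n := by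
      intro c hc
      have : psi 1 n ≤ psi c n := f2_psi_mono hc
      refine lt_of_lt_of_le ?_ this
      unfold psi
      have h0 : 0 ≤ Real.log (1 + n) := Real.log_nonneg (by linarith)
      push_cast
      positivity
    set E : ℝ := (n : ℝ) ^ 3 / (a * P) with hE
    have hmuL : E ≤ mu (Om a n (n ^ 16)) := by
      refine le_trans ?_ (hmu n hnn2 a ha1 han')
      have hpsi2 := hpos C₂ hC₂
      rw [hE]
      apply div_le_div_of_nonneg_left (by positivity) (by positivity)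
      exact mul_le_mul_of_nonneg_left hPC2 ha0.le
    have hmuU : mu (Om a n (n ^ 16)) ≤ M := by
      refine le_trans (hmu3 n hnn3 a ha1 han' (n ^ 16)) ?_
      rw [hM]
      apply div_le_div_of_nonneg_right _ ha0.le
      exact mul_le_mul_of_nonneg_left hPC3 (by positivity)
    have hEM : E ≤ M := hmuL.trans hmuU
    have t1 : Real.exp (-mu (Om a n (n ^ 16)) + σ) ≤ Real.exp (-Q) :=
      Real.exp_le_exp.2 (by linarith)
    have t2 : Real.exp (8 * mu (Om a n (n ^ 16)) + 64 * σ) / 8 ^ (2 * t) ≤ Real.exp (-Q) := by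
      have h8 : Real.exp (4 * t) ≤ (8 : ℝ) ^ (2 * t) := by
        have e1 : Real.exp (4 * t) = (Real.exp 2) ^ (2 * t) := by
          rw [← Real.exp_nat_mul]
          congr 1
          push_cast
          ring
        rw [e1]
        apply pow_le_pow_left₀ (Real.exp_pos _).le
        have e2 : Real.exp 2 = Real.exp 1 * Real.exp 1 := by
          rw [← Real.exp_add]
          norm_num
        rw [e2]
        have := Real.exp_one_lt_d9
        have h0 := Real.exp_pos 1
        nlinarith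
      rw [div_le_iff₀ (by positivity)]
      calc Real.exp (8 * mu (Om a n (n ^ 16)) + 64 * σ) ≤ Real.exp (-Q + 4 * t) :=
            Real.exp_le_exp.2 (by linarith)
        _ = Real.exp (-Q) * Real.exp (4 * t) := Real.exp_add _ _
        _ ≤ Real.exp (-Q) * 8 ^ (2 * t) := mul_le_mul_of_nonneg_left h8 (Real.exp_pos _).le
    have t3 : ((Om a n (n ^ 16)).card + 1 : ℝ) ^ (2 * t) ≤ N * Real.exp (-Q) := by
      have h8 : ((Om a n (n ^ 16)).card + 1 : ℝ) ^ (2 * t) ≤ (2 ^ (90 * n)) ^ (2 * t) :=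
        pow_le_pow_left₀ (by positivity) (f2_card_Om a n (n ^ 16) hn1) _
      have h9 : ((2 : ℝ) ^ (90 * n)) ^ (2 * t) ≤ Real.exp (L / 2) := by
        have e1 : ((2 : ℝ) ^ (90 * n)) ^ (2 * t) = Real.exp ((90 * n * (2 * t)) * Real.log 2) := by
          rw [← pow_mul, ← Real.rpow_natCast, Real.rpow_def_of_pos (by norm_num)]
          congr 1
          push_cast
          ring
        rw [e1]
        apply Real.exp_le_exp.2
        have hl2 : Real.log 2 ≤ 1 := by
          have := Real.log_two_lt_d9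
          linarith
        calc (90 * n * (2 * t)) * Real.log 2 ≤ (90 * n * (2 * t)) * 1 :=
              mul_le_mul_of_nonneg_left hl2 (by positivity)
          _ = 180 * (n * t) := by ring
          _ ≤ 180 * (n * (8 * M + 65)) := by
              have := mul_le_mul_of_nonneg_left ht2 hn0.le
              linarith
          _ ≤ L / 2 := h4
      have h10 : Real.exp (L / 2) = N * Real.exp (-(L / 2)) := by
        have : (N : ℝ) = Real.exp L := (Real.exp_log hN0).symm
        rw [this, ← Real.exp_add]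
        congr 1
        ring
      calc ((Om a n (n ^ 16)).card + 1 : ℝ) ^ (2 * t) ≤ Real.exp (L / 2) := h8.trans h9
        _ = N * Real.exp (-(L / 2)) := h10
        _ ≤ N * Real.exp (-Q) := by
            apply mul_le_mul_of_nonneg_left _ hN0.le
            exact Real.exp_le_exp.2 (by linarith)
    calc (N : ℝ) * (Real.exp (-mu (Om a n (n ^ 16)) + σ) +
          Real.exp (8 * mu (Om a n (n ^ 16)) + 64 * σ) / 8 ^ (2 * t)) +
          ((Om a n (n ^ 16)).card + 1 : ℝ) ^ (2 * t)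
        ≤ N * (Real.exp (-Q) + Real.exp (-Q)) + N * Real.exp (-Q) := by
          apply add_le_add _ t3
          apply mul_le_mul_of_nonneg_left _ hN0.le
          linarith
      _ = 3 * N * Real.exp (-Q) := by ring

end Pool.Agent.Helper1.ES
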