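import Pool.Agent.Helper1.ES.Defs

/-!
# Project ES: choice of the parameters (real analysis)
-/

set_option autoImplicit false

namespace Pool.Agent.Helper1.ES

open Finset Filter

theorem ev_log (k : ℕ) (ε c : ℝ) (hε : 0 < ε) (hc : 0 < c) :
    ∀ᶠ L : ℝ in atTop, c * (Real.log L) ^ k ≤ L ^ ε := by
  have h := (isLittleO_log_rpow_rpow_atTop (k : ℝ) hε).bound (inv_pos.2 hc)
  filter_upwards [h, eventually_ge_atTop (1 : ℝ)] with L hL hL1
  rw [Real.rpow_natCast, Real.norm_eq_abs, Real.norm_eq_abs] at hL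
  have h0 : 0 ≤ Real.log L := Real.log_nonneg hL1
  rw [abs_of_nonneg (pow_nonneg h0 k), abs_of_nonneg (Real.rpow_nonneg (by linarith) ε)] at hL
  calc c * (Real.log L) ^ k ≤ c * (c⁻¹ * L ^ ε) := mul_le_mul_of_nonneg_left hL hc.le
    _ = L ^ ε := by field_simp

theorem params (C n₀ : ℕ) (hC : 1 ≤ C) : ∀ᶠ L : ℝ in atTop, ∃ n : ℕ, n₀ ≤ n ∧ 1 ≤ n ∧
    1 ≤ psi C n ∧ psi C n ≤ n ∧ 1620 * ((n : ℝ) ^ 4 * psi C n) ≤ L / 2 ∧
    ∀ a : ℝ, 1 ≤ a → a ≤ L ^ (1 / 5 : ℝ) → a ≤ n ∧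
      (n : ℝ) ^ 2 * psi C n ^ 2 ≤ (n : ℝ) ^ 3 / (2 * (a * psi C n)) ∧
      3 * Real.exp (-((n : ℝ) ^ 3 / (2 * (a * psi C n)))) ≤
        Real.exp (-(L ^ (3 / 4 : ℝ) / (a * (Real.log L) ^ (4 * C + 8)))) ∧
      3 * Real.exp (-(L / 2)) ≤
        Real.exp (-(L ^ (3 / 4 : ℝ) / (a * (Real.log L) ^ (4 * C + 8)))) := by
  have e1 := ev_log (2 * C + 3) (1 / 4) 2 (by norm_num) (by norm_num)
  have e2 := ev_log (4 * C + 5) (1 / 20) 4 (by norm_num) (by norm_num)
  have e3 := ev_log (4 * C + 8) (1 / 20) 1 (by norm_num) (by norm_num)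
  have e4 := ev_log (C + 2) (1 / 4) (2 * (n₀ + 2)) (by norm_num) (by positivity)
  have e5 : ∀ᶠ L : ℝ in atTop, (4000 + (C : ℝ)) ≤ Real.log L :=
    Real.tendsto_log_atTop.eventually_ge_atTop _
  filter_upwards [e1, e2, e3, e4, e5, eventually_ge_atTop (256 : ℝ)] with L h1 h2 h3 h4 h5 h6
  have hCR : (1 : ℝ) ≤ C := by exact_mod_cast hC
  set ℓ := Real.log L with hℓ
  have hℓ1 : (4000 : ℝ) ≤ ℓ := by linarith
  have hℓC : (C : ℝ) ≤ ℓ := by linarith
  have hℓ0 : (0 : ℝ) < ℓ := by linarith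
  have hL0 : (0 : ℝ) < L := by linarith
  set r : ℝ := L ^ (1 / 4 : ℝ) with hr
  have hr0 : 0 < r := Real.rpow_pos_of_pos hL0 _
  have hr4 : r ^ 4 = L := by
    rw [hr, ← Real.rpow_natCast, ← Real.rpow_mul hL0.le]
    norm_num
  have hr3 : L ^ (3 / 4 : ℝ) = r ^ 3 := by
    rw [hr, ← Real.rpow_natCast, ← Real.rpow_mul hL0.le]
    norm_num
  have hr5 : r = L ^ (1 / 5 : ℝ) * L ^ (1 / 20 : ℝ) := by
    rw [hr, ← Real.rpow_add hL0]
    norm_num
  have hrge : 4 ≤ r := by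
    by_contra hcon
    push Not at hcon
    have : r ^ 4 < 4 ^ 4 := pow_lt_pow_left₀ hcon hr0.le (by norm_num)
    rw [hr4] at this
    linarith
  set q : ℝ := L ^ (1 / 20 : ℝ) with hq
  have hq0 : 0 < q := Real.rpow_pos_of_pos hL0 _
  have hlr : Real.log r = ℓ / 4 := by
    rw [hr, Real.log_rpow hL0]
    ring
  set x : ℝ := r / ℓ ^ (C + 2) with hx
  have hℓp : ∀ k : ℕ, 0 < ℓ ^ k := fun k => pow_pos hℓ0 k
  have hx0 : 0 < x := div_pos hr0 (hℓp _)
  have hx2 : 2 * ((n₀ : ℝ) + 2) ≤ x := by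
    rw [hx, le_div_iff₀ (hℓp _)]
    linarith
  set n : ℕ := ⌊x⌋₊ with hn
  have hnx : (n : ℝ) ≤ x := Nat.floor_le hx0.le
  have hxn : x / 2 ≤ n := by
    have : x < n + 1 := Nat.lt_floor_add_one x
    have : (0 : ℝ) ≤ n₀ := Nat.cast_nonneg _
    linarith
  have hnn : (n₀ : ℝ) + 2 ≤ n := by linarith
  have hn1 : (1 : ℝ) ≤ n := by
    have : (0 : ℝ) ≤ n₀ := Nat.cast_nonneg _
    linarith
  have hn0 : (0 : ℝ) < n := by linarith
  -- psi
  have hn1n : 1 ≤ n := by exact_mod_cast hn1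
  have hlog0 : 0 ≤ Real.log (1 + n) := Real.log_nonneg (by linarith)
  have hPpos : 1 ≤ psi C n := by
    unfold psi
    have : (1 : ℝ) ≤ (1 + Real.log (1 + n)) ^ C := one_le_pow₀ (by linarith)
    nlinarith
  have hxr : x ≤ r := by
    rw [hx]
    exact div_le_self hr0.le (one_le_pow₀ (by linarith))
  have hlogn : 1 + Real.log (1 + n) ≤ ℓ := by
    have : Real.log (1 + n) ≤ Real.log (2 * r) :=
      Real.log_le_log (by linarith) (by linarith)
    rw [Real.log_mul (by norm_num) hr0.ne', hlr] at this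
    have : Real.log 2 ≤ 1 := by
      have := Real.log_two_lt_d9
      linarith
    linarith
  have hPle : psi C n ≤ ℓ ^ (C + 1) := by
    unfold psi
    rw [pow_succ]
    have : (1 + Real.log (1 + n)) ^ C ≤ ℓ ^ C := pow_le_pow_left₀ (by linarith) hlogn C
    calc (C : ℝ) * (1 + Real.log (1 + n)) ^ C ≤ ℓ * ℓ ^ C := by
          apply mul_le_mul hℓC this (by positivity) hℓ0.le
      _ = ℓ ^ C * ℓ := by ring
  set P := psi C n with hP
  have hP0 : 0 < P := by linarith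
  refine ⟨n, ?_, hn1n, hPpos, ?_, ?_, ?_⟩
  · have : (n₀ : ℝ) ≤ n := by linarith
    exact_mod_cast this
  · -- P ≤ n
    refine hPle.trans (le_trans ?_ hxn)
    rw [hx, div_div, le_div_iff₀ (by have := hℓp (C + 2); positivity)]
    calc ℓ ^ (C + 1) * (ℓ ^ (C + 2) * 2) = 2 * ℓ ^ (2 * C + 3) := by ring
      _ ≤ r := h1
  · -- n^4 P
    have h7 : (n : ℝ) ^ 4 ≤ x ^ 4 := pow_le_pow_left₀ hn0.le hnx 4
    have h8 : (n : ℝ) ^ 4 * P ≤ L / ℓ := by
      calc (n : ℝ) ^ 4 * P ≤ x ^ 4 * ℓ ^ (C + 1) := mul_le_mul h7 hPle hP0.le (by positivity)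
        _ = L * ℓ ^ (C + 1) / ℓ ^ (4 * C + 8) := by
            rw [hx, div_pow, hr4, ← pow_mul]
            rw [show (C + 2) * 4 = 4 * C + 8 by ring]
            ring
        _ ≤ L / ℓ := by
            rw [div_le_div_iff₀ (hℓp _) hℓ0]
            rw [mul_assoc, ← pow_succ]
            apply mul_le_mul_of_nonneg_left _ hL0.le
            exact pow_le_pow_right₀ (by linarith) (by omega)
    calc 1620 * ((n : ℝ) ^ 4 * P) ≤ 1620 * (L / ℓ) := by linarith
      _ = (1620 / ℓ) * L := by ring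
      _ ≤ (1 / 2) * L := by
          apply mul_le_mul_of_nonneg_right _ hL0.le
          rw [div_le_iff₀ hℓ0]
          linarith
      _ = L / 2 := by ring
  · intro a ha1 haL
    have ha0 : 0 < a := by linarith
    have hra : a * q ≤ r := by
      rw [hr5]
      exact mul_le_mul_of_nonneg_right haL hq0.le
    have hq1 : 1 ≤ q := by
      refine le_trans ?_ h3
      rw [one_mul]
      exact one_le_pow₀ (by linarith)
    have han' : 2 * a * ℓ ^ (3 * C + 3) ≤ n := by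
      refine le_trans ?_ hxn
      rw [hx, div_div, le_div_iff₀ (by have := hℓp (C + 2); positivity)]
      calc 2 * a * ℓ ^ (3 * C + 3) * (ℓ ^ (C + 2) * 2) = a * (4 * ℓ ^ (4 * C + 5)) := by ring
        _ ≤ a * q := mul_le_mul_of_nonneg_left h2 ha0.le
        _ ≤ r := hra
    have hPP : P ^ 3 ≤ ℓ ^ (3 * C + 3) := by
      calc P ^ 3 ≤ (ℓ ^ (C + 1)) ^ 3 := pow_le_pow_left₀ hP0.le hPle 3
        _ = ℓ ^ (3 * C + 3) := by rw [← pow_mul]; ring_nf
    have haP : 2 * a * P ^ 3 ≤ n := by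
      refine le_trans ?_ han'
      exact mul_le_mul_of_nonneg_left hPP (by linarith)
    have haP1 : a ≤ n := by
      have : 1 ≤ P ^ 3 := one_le_pow₀ hPpos
      nlinarith
    refine ⟨haP1, ?_, ?_, ?_⟩
    · rw [le_div_iff₀ (by positivity)]
      calc (n : ℝ) ^ 2 * P ^ 2 * (2 * (a * P)) = (n : ℝ) ^ 2 * (2 * a * P ^ 3) := by ring
        _ ≤ (n : ℝ) ^ 2 * n := mul_le_mul_of_nonneg_left haP (by positivity)
        _ = (n : ℝ) ^ 3 := by ring
    · -- main exponent
      rw [hr3]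
      set Q := r ^ 3 / (a * ℓ ^ (4 * C + 8)) with hQ
      have hQ1 : 1 ≤ Q := by
        rw [hQ, le_div_iff₀ (by have := hℓp (4 * C + 8); positivity)]
        calc 1 * (a * ℓ ^ (4 * C + 8)) = a * (1 * ℓ ^ (4 * C + 8)) := by ring
          _ ≤ a * q := mul_le_mul_of_nonneg_left h3 ha0.le
          _ ≤ r := hra
          _ ≤ r ^ 3 := by
              have : 1 ≤ r ^ 2 := one_le_pow₀ (by linarith)
              nlinarith
      have h9 : Q * ℓ / 16 ≤ (n : ℝ) ^ 3 / (2 * (a * P)) := by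
        have h10 : (x / 2) ^ 3 ≤ (n : ℝ) ^ 3 := pow_le_pow_left₀ (by positivity) hxn 3
        have h11 : (x / 2) ^ 3 / (2 * (a * ℓ ^ (C + 1))) ≤ (n : ℝ) ^ 3 / (2 * (a * P)) := by
          apply div_le_div₀ (by positivity) h10 (by positivity)
          have := mul_le_mul_of_nonneg_left hPle ha0.le
          linarith
        refine le_trans (le_of_eq ?_) h11
        rw [hQ, hx]
        have hne : ℓ ≠ 0 := hℓ0.ne'
        have e : ℓ ^ (4 * C + 8) = (ℓ ^ (C + 2)) ^ 3 * ℓ ^ (C + 1) * ℓ := by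
          rw [← pow_mul, ← pow_add, ← pow_succ]
          congr 1
          ring
        rw [e]
        field_simp
        norm_num
      have h12 : Q + 2 ≤ (n : ℝ) ^ 3 / (2 * (a * P)) := by
        refine le_trans ?_ h9
        have : Q * 4000 ≤ Q * ℓ := mul_le_mul_of_nonneg_left hℓ1 (by linarith)
        linarith
      calc 3 * Real.exp (-((n : ℝ) ^ 3 / (2 * (a * P))))
          ≤ Real.exp 2 * Real.exp (-((n : ℝ) ^ 3 / (2 * (a * P)))) := by
            apply mul_le_mul_of_nonneg_right _ (Real.exp_pos _).le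
            have := Real.add_one_le_exp (2 : ℝ)
            linarith
        _ = Real.exp (2 + -((n : ℝ) ^ 3 / (2 * (a * P)))) := by rw [Real.exp_add]
        _ ≤ Real.exp (-Q) := by
            apply Real.exp_le_exp.2
            linarith
    · rw [hr3]
      set Q := r ^ 3 / (a * ℓ ^ (4 * C + 8)) with hQ
      have hQr : Q ≤ r ^ 3 := by
        rw [hQ]
        apply div_le_self (by positivity)
        have : 1 ≤ ℓ ^ (4 * C + 8) := one_le_pow₀ (by linarith)
        nlinarith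
      have h13 : Q + 2 ≤ L / 2 := by
        have : 4 * r ^ 3 ≤ L := by
          rw [← hr4]
          calc 4 * r ^ 3 ≤ r * r ^ 3 := mul_le_mul_of_nonneg_right hrge (by positivity)
            _ = r ^ 4 := by ring
        linarith
      calc 3 * Real.exp (-(L / 2)) ≤ Real.exp 2 * Real.exp (-(L / 2)) := by
            apply mul_le_mul_of_nonneg_right _ (Real.exp_pos _).le
            have := Real.add_one_le_exp (2 : ℝ)
            linarith
        _ = Real.exp (2 + -(L / 2)) := by rw [Real.exp_add]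
        _ ≤ Real.exp (-Q) := by
            apply Real.exp_le_exp.2
            linarith

end Pool.Agent.Helper1.ES
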