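import Pool.Agent.Helper1.ES.Params

/-!
# Project ES: choice of the parameters, uniform in `a`
-/

set_option autoImplicit false

namespace Pool.Agent.Helper1.ES

open Finset Filter

theorem params2 (C n₀ : ℕ) (hC : 1 ≤ C) : ∀ᶠ L : ℝ in atTop, ∀ a : ℝ, 1 ≤ a →
    (Real.log L) ^ (8 * C + 5) ≤ (L ^ 3 / a) ^ (1 / 4 : ℝ) →
    ∃ n : ℕ, n₀ ≤ n ∧ 2 ≤ n ∧ 1 ≤ psi C n ∧ psi C n ≤ n ∧ a ≤ 2 ^ n ∧
      180 * (n * (8 * ((n : ℝ) ^ 3 * psi C n / a) + 65)) ≤ L / 2 ∧
      (L ^ 3 / a) ^ (1 / 4 : ℝ) / (Real.log L) ^ (8 * C + 5) + 1 ≤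
        (n : ℝ) ^ 3 / (a * psi C n) ∧
      (L ^ 3 / a) ^ (1 / 4 : ℝ) / (Real.log L) ^ (8 * C + 5) ≤ L / 2 := by
  have e1 := ev_log (2 * (2 * C + 1)) (1 / 4) 2 (by norm_num) (by norm_num)
  have e2 := ev_log (2 * C + 1 + 1) (1 / 4) 10 (by norm_num) (by norm_num)
  have e4 := ev_log (2 * C + 1) (1 / 4) (2 * (n₀ + 2)) (by norm_num) (by positivity)
  have e5 : ∀ᶠ L : ℝ in atTop, (30000 + (C : ℝ)) ≤ Real.log L :=
    Real.tendsto_log_atTop.eventually_ge_atTop _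
  filter_upwards [e1, e2, e4, e5, eventually_ge_atTop (256 : ℝ)] with L h1 h2 h4 h5 h6
  intro a ha1 hs1
  have hCR : (1 : ℝ) ≤ C := by exact_mod_cast hC
  obtain ⟨K, hK⟩ : ∃ K, K = 2 * C + 1 := ⟨_, rfl⟩
  rw [← hK] at h1 h2 h4
  have hE : 8 * C + 5 = 4 * K + 1 := by omega
  rw [hE] at hs1 ⊢
  set ℓ := Real.log L with hℓ
  have hℓ1 : (30000 : ℝ) ≤ ℓ := by linarith
  have hℓC : (C : ℝ) ≤ ℓ := by linarith
  have hℓ0 : (0 : ℝ) < ℓ := by linarith
  have hL0 : (0 : ℝ) < L := by linarith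
  have ha0 : (0 : ℝ) < a := by linarith
  set r : ℝ := (a * L) ^ (1 / 4 : ℝ) with hr
  have haL0 : 0 < a * L := mul_pos ha0 hL0
  have hr0 : 0 < r := Real.rpow_pos_of_pos haL0 _
  have hr4 : r ^ 4 = a * L := by
    rw [hr, ← Real.rpow_natCast, ← Real.rpow_mul haL0.le]
    norm_num
  set s : ℝ := (L ^ 3 / a) ^ (1 / 4 : ℝ) with hs
  have hLa0 : 0 < L ^ 3 / a := by positivity
  have hs0 : 0 < s := Real.rpow_pos_of_pos hLa0 _
  have hs4 : s ^ 4 = L ^ 3 / a := by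
    rw [hs, ← Real.rpow_natCast, ← Real.rpow_mul hLa0.le]
    norm_num
  have hrs : r * s = L := by
    have h7 : (r * s) ^ 4 = L ^ 4 := by
      rw [mul_pow, hr4, hs4]
      field_simp
    exact (pow_left_inj₀ (by positivity) hL0.le (by norm_num)).1 h7
  have hr3 : r ^ 3 = a * s := by
    have h7 : r ^ 3 * r = (a * s) * r := by
      calc r ^ 3 * r = r ^ 4 := by ring
        _ = a * L := hr4
        _ = a * (r * s) := by rw [hrs]
        _ = (a * s) * r := by ring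
    exact mul_right_cancel₀ hr0.ne' h7
  have hrL : L ^ (1 / 4 : ℝ) ≤ r := by
    rw [hr]
    apply Real.rpow_le_rpow hL0.le _ (by norm_num)
    nlinarith
  have hℓp : ∀ k : ℕ, 0 < ℓ ^ k := fun k => pow_pos hℓ0 k
  have hℓp1 : ∀ k : ℕ, 1 ≤ ℓ ^ k := fun k => one_le_pow₀ (by linarith)
  have hs1' : 1 ≤ s := (hℓp1 _).trans hs1
  have hrL' : r * ℓ ^ (4 * K + 1) ≤ L := by
    calc r * ℓ ^ (4 * K + 1) ≤ r * s := mul_le_mul_of_nonneg_left hs1 hr0.le
      _ = L := hrs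
  have hr2 : 2 ≤ r := by
    refine le_trans ?_ (h1.trans hrL)
    have := hℓp1 (2 * K)
    linarith
  set x : ℝ := r / ℓ ^ K with hx
  have hx0 : 0 < x := div_pos hr0 (hℓp _)
  have hx2 : 2 * ((n₀ : ℝ) + 2) ≤ x := by
    rw [hx, le_div_iff₀ (hℓp _)]
    linarith
  set n : ℕ := ⌊x⌋₊ with hn
  have hn₀0 : (0 : ℝ) ≤ n₀ := Nat.cast_nonneg _
  have hnx : (n : ℝ) ≤ x := Nat.floor_le hx0.le
  have hxn : x / 2 ≤ n := by
    have : x < n + 1 := Nat.lt_floor_add_one x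
    linarith
  have hnn : (n₀ : ℝ) + 2 ≤ n := by linarith
  have hn2 : (2 : ℝ) ≤ n := by linarith
  have hn0 : (0 : ℝ) < n := by linarith
  have hxr : x ≤ r := by
    rw [hx]
    exact div_le_self hr0.le (hℓp1 _)
  have hrLe : r ≤ L := by
    refine le_trans ?_ hrL'
    have := hℓp1 (4 * K + 1)
    nlinarith
  -- psi
  have hlog0 : 0 ≤ Real.log (1 + n) := Real.log_nonneg (by linarith)
  have hPpos : 1 ≤ psi C n := by
    unfold psi
    have : (1 : ℝ) ≤ (1 + Real.log (1 + n)) ^ C := one_le_pow₀ (by linarith)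
    nlinarith
  have hlogn : 1 + Real.log (1 + n) ≤ 2 * ℓ := by
    have : Real.log (1 + n) ≤ Real.log (2 * L) :=
      Real.log_le_log (by linarith) (by linarith)
    rw [Real.log_mul (by norm_num) hL0.ne'] at this
    have : Real.log 2 ≤ 1 := by
      have := Real.log_two_lt_d9
      linarith
    linarith
  have hPle : psi C n ≤ ℓ ^ K := by
    unfold psi
    have h7 : (1 + Real.log (1 + n)) ^ C ≤ (2 * ℓ) ^ C := pow_le_pow_left₀ (by linarith) hlogn C
    have h8 : (2 * ℓ) ^ C ≤ ℓ ^ C * ℓ ^ C := by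
      rw [mul_pow]
      apply mul_le_mul_of_nonneg_right _ (hℓp _).le
      exact pow_le_pow_left₀ (by norm_num) (by linarith) C
    calc (C : ℝ) * (1 + Real.log (1 + n)) ^ C ≤ ℓ * (ℓ ^ C * ℓ ^ C) := by
          apply mul_le_mul hℓC (h7.trans h8) (by positivity) hℓ0.le
      _ = ℓ ^ K := by rw [hK]; ring
  set P := psi C n with hP
  have hP0 : 0 < P := by linarith
  refine ⟨n, ?_, ?_, hPpos, ?_, ?_, ?_, ?_, ?_⟩
  · have : (n₀ : ℝ) ≤ n := by linarith
    exact_mod_cast this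
  · exact_mod_cast hn2
  · -- P ≤ n
    refine hPle.trans (le_trans ?_ hxn)
    rw [hx, div_div, le_div_iff₀ (by have := hℓp K; positivity)]
    calc ℓ ^ K * (ℓ ^ K * 2) = 2 * ℓ ^ (2 * K) := by ring
      _ ≤ r := h1.trans hrL
  · -- a ≤ 2 ^ n
    have haL3 : a ≤ L ^ 3 := by
      have h7 : (1 : ℝ) ≤ L ^ 3 / a := by
        rw [← hs4]
        exact one_le_pow₀ hs1'
      rwa [le_div_iff₀ ha0, one_mul] at h7
    refine haL3.trans ?_
    have h8 : 5 * ℓ ≤ n := by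
      refine le_trans ?_ hxn
      rw [hx, div_div, le_div_iff₀ (by have := hℓp K; positivity)]
      calc 5 * ℓ * (ℓ ^ K * 2) = 10 * ℓ ^ (K + 1) := by ring
        _ ≤ r := h2.trans hrL
    rw [← Real.log_le_log_iff (by positivity) (by positivity), Real.log_pow, Real.log_pow]
    have h9 := Real.log_two_gt_d9
    push_cast
    nlinarith
  · -- error term
    have h7 : (n : ℝ) ^ 4 ≤ x ^ 4 := pow_le_pow_left₀ hn0.le hnx 4
    have h8 : (n : ℝ) ^ 4 * P / a ≤ L / ℓ := by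
      calc (n : ℝ) ^ 4 * P / a ≤ x ^ 4 * ℓ ^ K / a :=
            div_le_div_of_nonneg_right (mul_le_mul h7 hPle hP0.le (by positivity)) ha0.le
        _ = L * ℓ ^ K / ℓ ^ (K * 4) := by
            rw [hx, div_pow, hr4, ← pow_mul]
            field_simp
        _ ≤ L / ℓ := by
            rw [div_le_div_iff₀ (hℓp _) hℓ0]
            rw [mul_assoc, ← pow_succ]
            apply mul_le_mul_of_nonneg_left _ hL0.le
            exact pow_le_pow_right₀ (by linarith) (by omega)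
    have h9 : (n : ℝ) ≤ L / ℓ := by
      rw [le_div_iff₀ hℓ0]
      calc (n : ℝ) * ℓ ≤ r * ℓ ^ (4 * K + 1) := by
            apply mul_le_mul (hnx.trans hxr) _ hℓ0.le hr0.le
            calc ℓ = ℓ ^ 1 := (pow_one _).symm
              _ ≤ ℓ ^ (4 * K + 1) := pow_le_pow_right₀ (by linarith) (by omega)
        _ ≤ L := hrL'
    calc 180 * (n * (8 * ((n : ℝ) ^ 3 * P / a) + 65))
        = 1440 * ((n : ℝ) ^ 4 * P / a) + 11700 * n := by ring
      _ ≤ 1440 * (L / ℓ) + 11700 * (L / ℓ) := by linarith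
      _ = (13140 / ℓ) * L := by ring
      _ ≤ (1 / 2) * L := by
          apply mul_le_mul_of_nonneg_right _ hL0.le
          rw [div_le_iff₀ hℓ0]
          linarith
      _ = L / 2 := by ring
  · -- main exponent
    set Q := s / ℓ ^ (4 * K + 1) with hQ
    have hQ1 : 1 ≤ Q := by
      rw [hQ, le_div_iff₀ (hℓp _), one_mul]
      exact hs1
    have h9 : Q * ℓ / 8 ≤ (n : ℝ) ^ 3 / (a * P) := by
      have h10 : (x / 2) ^ 3 ≤ (n : ℝ) ^ 3 := pow_le_pow_left₀ (by positivity) hxn 3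
      have h11 : (x / 2) ^ 3 / (a * ℓ ^ K) ≤ (n : ℝ) ^ 3 / (a * P) := by
        apply div_le_div₀ (by positivity) h10 (by positivity)
        exact mul_le_mul_of_nonneg_left hPle ha0.le
      refine le_trans (le_of_eq ?_) h11
      rw [hQ, hx]
      have hne : ℓ ≠ 0 := hℓ0.ne'
      have e : ℓ ^ (4 * K + 1) = (ℓ ^ K) ^ 3 * ℓ ^ K * ℓ := by
        rw [← pow_mul, ← pow_add, ← pow_succ]
        congr 1
        ring
      rw [e, div_pow, div_pow, hr3]
      field_simp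
      norm_num
    refine le_trans ?_ h9
    have : Q * 30000 ≤ Q * ℓ := mul_le_mul_of_nonneg_left hℓ1 (by linarith)
    linarith
  · have h7 : s / ℓ ^ (4 * K + 1) ≤ s := div_le_self hs0.le (hℓp1 _)
    have h8 : 2 * s ≤ L := by
      rw [← hrs]
      exact mul_le_mul_of_nonneg_right hr2 hs0.le
    linarith

end Pool.Agent.Helper1.ES
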